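import Mathlib
import Pool.Agent.Q37.Assoc
import Pool.Agent.Q37.LSSVec

/-!
# A Lovász–Saks–Schrijver ideal with an embedded associated prime

Over every field `k` with `2 ≠ 0` there is a graph on seven vertices whose LSS ideal in dimension
`d = 3` has an embedded associated prime.
-/

set_option autoImplicit false

open MvPolynomial

namespace Pool.Agent.Results.MP_e1e5e2_ag.EmbeddedPrime

/-- The `d`-th Lovász–Saks–Schrijver ideal of the graph `G` on the vertex set `Fin n`: it is
generated by the polynomials `∑ i, x (i, j) * x (i, l)`, `{j, l}` an edge of `G`. -/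
noncomputable def LSS (k : Type*) [Field k] (d : ℕ) {n : ℕ} (G : SimpleGraph (Fin n)) :
    Ideal (MvPolynomial (Fin d × Fin n) k) :=
  Ideal.span {f | ∃ j l : Fin n, G.Adj j l ∧ f = ∑ i : Fin d, X (i, j) * X (i, l)}

open Q37.LSSVec

/-- the edges of the graph -/
def E : Finset (Fin 7 × Fin 7) :=
  {(0, 1), (0, 2), (1, 2), (1, 3), (2, 3), (2, 4), (3, 4), (3, 5), (4, 5), (2, 6), (3, 6)}

/-- the graph on seven vertices -/
def G : SimpleGraph (Fin 7) where
  Adj a b := (a, b) ∈ E ∨ (b, a) ∈ E
  symm := ⟨fun _ _ h => h.symm⟩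
  loopless := ⟨by intro a; revert a; decide⟩

section

variable {k : Type*} [Field k]

/-- ring homomorphisms kill the ideal if the edges go to orthogonal triples -/
lemma LSS_le_ker {A : Type*} [CommRing A] (φ : MvPolynomial (Fin 3 × Fin 7) k →+* A)
    (h : ∀ a b, (a, b) ∈ E → dot (fun i => φ (X (i, a))) (fun i => φ (X (i, b))) = 0) :
    LSS k 3 G ≤ RingHom.ker φ := by
  rw [LSS, Ideal.span_le]
  rintro f ⟨j, l, hjl, rfl⟩
  rw [SetLike.mem_coe, RingHom.mem_ker, map_sum]
  simp only [map_mul, Fin.sum_univ_three]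
  rcases hjl with hjl | hjl
  · exact h j l hjl
  · have := h l j hjl
    simp only [dot] at this
    rw [← this]; ring

lemma mem_LSS (a b : Fin 7) (h : (a, b) ∈ E) :
    (∑ i : Fin 3, X (i, a) * X (i, b) : MvPolynomial (Fin 3 × Fin 7) k) ∈ LSS k 3 G :=
  Ideal.subset_span ⟨a, b, Or.inl h, rfl⟩

end

/-- **An LSS ideal with an embedded prime.** Let `k` be a field in which `2 ≠ 0`. There is a graph
`G` on seven vertices such that the LSS ideal of `G` in dimension three has an associated prime
which properly contains another associated prime. -/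
theorem result (k : Type*) [Field k] (h2 : (2 : k) ≠ 0) :
    ∃ G : SimpleGraph (Fin 7),
      ∃ P ∈ associatedPrimes (MvPolynomial (Fin 3 × Fin 7) k)
          (MvPolynomial (Fin 3 × Fin 7) k ⧸ LSS k 3 G),
      ∃ Q ∈ associatedPrimes (MvPolynomial (Fin 3 × Fin 7) k)
          (MvPolynomial (Fin 3 × Fin 7) k ⧸ LSS k 3 G),
        P < Q := by
  classical
  refine ⟨G, ?_⟩
  set L := LSS k 3 G with hL
  -- the vectors of the variables modulo `L`
  let yR : Fin 7 → Fin 3 → (MvPolynomial (Fin 3 × Fin 7) k ⧸ L) :=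
    fun v i => Ideal.Quotient.mk L (X (i, v))
  have hd : ∀ a b, (a, b) ∈ E → dot (yR a) (yR b) = 0 := by
    intro a b hab
    have := mem_LSS (k := k) a b hab
    rw [← hL, ← Ideal.Quotient.eq_zero_iff_mem, map_sum] at this
    simpa [Fin.sum_univ_three, dot, yR] using this
  let y : Fin 7 → Fin 3 → MvPolynomial (Fin 3 × Fin 7) k := fun v i => X (i, v)
  let H : MvPolynomial (Fin 3 × Fin 7) k :=
    y 1 0 * y 2 0 * y 3 0 * y 4 0 * cr (y 0) (y 3) 1 * cr (y 2) (y 5) 1
  let w : MvPolynomial (Fin 3 × Fin 7) k := cr (y 2) (y 3) 1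
  have cx : ∀ a : Fin 3, cr (y 2) (y 3) a * H ^ 1 * w ∈ L := by
    intro a
    rw [← Ideal.Quotient.eq_zero_iff_mem]
    have := cert_x yR (hd _ _ (by decide)) (hd _ _ (by decide)) (hd _ _ (by decide))
      (hd _ _ (by decide)) (hd _ _ (by decide)) (hd _ _ (by decide)) (hd _ _ (by decide))
      (hd _ _ (by decide)) (hd _ _ (by decide)) a
    simp only [pow_one, map_mul, map_cr, H, w, y]
    exact this
  have cy : ∀ a : Fin 3, cr (y 3) (y 6) a * H ^ 1 * w ∈ L := by
    intro a
    rw [← Ideal.Quotient.eq_zero_iff_mem]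
    have := cert_y yR (hd _ _ (by decide)) (hd _ _ (by decide)) (hd _ _ (by decide))
      (hd _ _ (by decide)) (hd _ _ (by decide)) (hd _ _ (by decide)) (hd _ _ (by decide)) a
    simp only [pow_one, map_mul, map_cr, H, w, y]
    exact this
  -- no power of `H` times `w` lies in `L`
  have hw : ∀ N : ℕ, H ^ N * w ∉ L := by
    intro N hN
    obtain ⟨i, hi⟩ := IsAlgClosed.exists_pow_nat_eq (-1 : AlgebraicClosure k) (n := 2) (by norm_num)
    have h2' : (2 : AlgebraicClosure k) ≠ 0 := by
      intro h
      apply h2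
      apply (algebraMap k (AlgebraicClosure k)).injective
      rw [map_zero, ← h]
      exact map_ofNat _ 2
    let B := DualNumber (AlgebraicClosure k)
    let e : B := DualNumber.eps
    let I : B := TrivSqZeroExt.inl i
    let c : B := TrivSqZeroExt.inl (2⁻¹)
    have he : e * e = 0 := DualNumber.eps_mul_eps
    have hI : I * I = -1 := by
      show TrivSqZeroExt.inl i * TrivSqZeroExt.inl i = _
      rw [← TrivSqZeroExt.inl_mul, ← pow_two, hi, TrivSqZeroExt.inl_neg, TrivSqZeroExt.inl_one]
    have hc : 2 * c = 1 := by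
      have : (2 : B) = TrivSqZeroExt.inl 2 := rfl
      show (2 : B) * TrivSqZeroExt.inl (2⁻¹) = 1
      rw [this, ← TrivSqZeroExt.inl_mul, mul_inv_cancel₀ h2']
      rfl
    let Y : Fin 7 → Fin 3 → B := ![![1 - c * e, I * (1 + c * e), 1], ![1, I, e], ![1, I, e],
      ![1, I, 0], ![1, I, 0], ![1, I, 1], ![1, I, 0]]
    let φ : MvPolynomial (Fin 3 × Fin 7) k →+* B :=
      eval₂Hom ((TrivSqZeroExt.inlHom (AlgebraicClosure k) (AlgebraicClosure k)).comp
        (algebraMap k (AlgebraicClosure k))) (fun p => Y p.2 p.1)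
    have hφ : ∀ v i, φ (X (i, v)) = Y v i := fun v i => eval₂Hom_X' _ _ _
    have hker : L ≤ RingHom.ker φ := by
      apply LSS_le_ker
      have hdot : ∀ a b, (a, b) ∈ E → dot (Y a) (Y b) = 0 := by
        intro a b hab
        simp only [E, Finset.mem_insert, Finset.mem_singleton, Prod.mk.injEq] at hab
        rcases hab with ⟨rfl, rfl⟩ | ⟨rfl, rfl⟩ | ⟨rfl, rfl⟩ | ⟨rfl, rfl⟩ | ⟨rfl, rfl⟩ | ⟨rfl, rfl⟩ |
          ⟨rfl, rfl⟩ | ⟨rfl, rfl⟩ | ⟨rfl, rfl⟩ | ⟨rfl, rfl⟩ | ⟨rfl, rfl⟩
        · show (1 - c * e) * 1 + I * (1 + c * e) * I + 1 * e = 0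
          linear_combination (1 + c * e) * hI - e * hc
        · show (1 - c * e) * 1 + I * (1 + c * e) * I + 1 * e = 0
          linear_combination (1 + c * e) * hI - e * hc
        · show (1 : B) * 1 + I * I + e * e = 0
          linear_combination hI + he
        · show (1 : B) * 1 + I * I + e * 0 = 0
          linear_combination hI
        · show (1 : B) * 1 + I * I + e * 0 = 0
          linear_combination hI
        · show (1 : B) * 1 + I * I + e * 0 = 0
          linear_combination hI
        · show (1 : B) * 1 + I * I + 0 * 0 = 0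
          linear_combination hI
        · show (1 : B) * 1 + I * I + 0 * 1 = 0
          linear_combination hI
        · show (1 : B) * 1 + I * I + 0 * 1 = 0
          linear_combination hI
        · show (1 : B) * 1 + I * I + e * 0 = 0
          linear_combination hI
        · show (1 : B) * 1 + I * I + 0 * 0 = 0
          linear_combination hI
      intro a b hab
      simp only [hφ]
      exact hdot a b hab
    have h0 : φ (H ^ N * w) = 0 := hker hN
    have h1 : φ w = e := by
      simp only [w, map_cr, y, hφ]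
      show e * 1 - 1 * 0 = e
      ring
    have h3 : φ H = e - 1 := by
      simp only [H, map_mul, map_cr, y, hφ]
      show (1 : B) * 1 * 1 * 1 * (1 * 1 - (1 - c * e) * 0) * (e * 1 - 1 * 1) = e - 1
      ring
    have h4 : ∀ N : ℕ, (e - 1) ^ N * e = (-1) ^ N * e := by
      intro N
      induction N with
      | zero => simp
      | succ n ih =>
        rw [pow_succ', mul_assoc, ih, pow_succ']
        linear_combination (-1) ^ n * he
    rw [map_mul, map_pow, h1, h3, h4] at h0
    have h5 : e = 0 := by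
      have : ((-1) ^ N * (-1) ^ N : B) = 1 := by
        rw [← mul_pow, neg_mul_neg, one_mul, one_pow]
      calc e = ((-1) ^ N * (-1) ^ N) * e := by rw [this, one_mul]
        _ = (-1) ^ N * ((-1) ^ N * e) := by ring
        _ = 0 := by rw [h0, mul_zero]
    have h6 : TrivSqZeroExt.snd e = 0 := by rw [h5]; rfl
    have h7 : TrivSqZeroExt.snd e = (1 : AlgebraicClosure k) := rfl
    exact one_ne_zero (h7.symm.trans h6)
  obtain ⟨Q, hQ, hHQ, hQmem⟩ := Q37.exists_assoc_of_pow L H w hw
  have hQp : Q.IsPrime := hQ.isPrime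
  have hxQ : ∀ a, cr (y 2) (y 3) a ∈ Q := fun a => hQmem _ ⟨1, cx a⟩
  have hyQ : ∀ a, cr (y 3) (y 6) a ∈ Q := fun a => hQmem _ ⟨1, cy a⟩
  have hLQ : L ≤ Q := by
    intro f hf
    exact hQmem f ⟨0, by simpa using L.mul_mem_right w hf⟩
  -- the domain `A = S / Q` and the values of the variables in it
  let A := MvPolynomial (Fin 3 × Fin 7) k ⧸ Q
  let π : MvPolynomial (Fin 3 × Fin 7) k →+* A := Ideal.Quotient.mk Q
  let z : Fin 7 → Fin 3 → A := fun v i => π (y v i)
  have hzd : ∀ a b, (a, b) ∈ E → dot (z a) (z b) = 0 := by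
    intro a b hab
    have := hLQ (mem_LSS (k := k) a b hab)
    rw [← Ideal.Quotient.eq_zero_iff_mem, map_sum] at this
    simpa [Fin.sum_univ_three, dot, z, y, π] using this
  have hzx : ∀ a, cr (z 2) (z 3) a = 0 := by
    intro a
    have := Ideal.Quotient.eq_zero_iff_mem.mpr (hxQ a)
    rwa [map_cr] at this
  have hz2 : z 2 0 ≠ 0 := by
    intro h0
    apply hHQ
    have : y 2 0 ∈ Q := Ideal.Quotient.eq_zero_iff_mem.mp h0
    have e1 : H = (y 1 0 * y 3 0 * y 4 0 * cr (y 0) (y 3) 1 * cr (y 2) (y 5) 1) * y 2 0 := by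
      simp only [H]; ring
    rw [e1]
    exact Q.mul_mem_left _ this
  have hz3 : z 3 0 ≠ 0 := by
    intro h0
    apply hHQ
    have : y 3 0 ∈ Q := Ideal.Quotient.eq_zero_iff_mem.mp h0
    have e1 : H = (y 1 0 * y 2 0 * y 4 0 * cr (y 0) (y 3) 1 * cr (y 2) (y 5) 1) * y 3 0 := by
      simp only [H]; ring
    rw [e1]
    exact Q.mul_mem_left _ this
  -- a vector orthogonal to `z 2` and `z 3`
  let t : Fin 3 → A := ![0, z 2 2, - z 2 1]
  -- move the vector of the last vertex
  let θ : MvPolynomial (Fin 3 × Fin 7) k →+* Polynomial A :=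
    eval₂Hom (Polynomial.C.comp (algebraMap k A))
      (fun p => Polynomial.C (z p.2 p.1) + if p.2 = 6 then Polynomial.X * Polynomial.C (t p.1) else 0)
  have hθ : ∀ v i, θ (X (i, v)) = Polynomial.C (z v i) +
      if v = 6 then Polynomial.X * Polynomial.C (t i) else 0 := fun v i => eval₂Hom_X' _ _ _
  have hker : L ≤ RingHom.ker θ := by
    apply LSS_le_ker
    intro a b hab
    simp only [hθ]
    have h1 := hzd a b hab
    by_cases hb : b = 6
    · subst hb
      have ha : a ≠ 6 := by
        rintro rfl; revert hab; decide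
      have ha2 : a = 2 ∨ a = 3 := by
        clear h1
        revert hab ha; revert a; decide
      have h3 : dot (z a) t = 0 := by
        rcases ha2 with rfl | rfl
        · show z 2 0 * 0 + z 2 1 * z 2 2 + z 2 2 * (- z 2 1) = 0
          ring
        · have := hzx 0
          rw [cr_zero] at this
          show z 3 0 * 0 + z 3 1 * z 2 2 + z 3 2 * (- z 2 1) = 0
          linear_combination (-1 : A) * this
      simp only [dot, if_neg ha, if_true, add_zero] at h1 h3 ⊢
      have h1' := congrArg (Polynomial.C (R := A)) h1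
      have h3' := congrArg (Polynomial.C (R := A)) h3
      simp only [map_add, map_mul, map_zero] at h1' h3'
      linear_combination h1' + Polynomial.X * h3'
    · have ha : a ≠ 6 := by
        rintro rfl
        clear h1 hb
        revert hab; revert b; decide
      simp only [dot, if_neg ha, if_neg hb, add_zero] at h1 ⊢
      rw [← Polynomial.C_mul, ← Polynomial.C_mul, ← Polynomial.C_mul, ← Polynomial.C_add,
        ← Polynomial.C_add, h1, Polynomial.C_0]
  have hev : (Polynomial.evalRingHom (0 : A)).comp θ = π := by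
    apply MvPolynomial.ringHom_ext
    · intro a
      simp [θ, π]
      rfl
    · rintro ⟨i, v⟩
      rw [RingHom.comp_apply, hθ]
      by_cases hv : v = 6 <;> simp [hv, z, π, y]
  have hle : RingHom.ker θ ≤ Q := by
    intro f hf
    rw [← Ideal.Quotient.eq_zero_iff_mem]
    show π f = 0
    rw [← hev, RingHom.comp_apply, (RingHom.mem_ker).mp hf, map_zero]
  have hne : cr (y 3) (y 6) 0 ∉ RingHom.ker θ := by
    rw [RingHom.mem_ker, map_cr]
    intro h0
    have h0' : cr (fun i => Polynomial.C (z 3 i) +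
          if (3 : Fin 7) = 6 then Polynomial.X * Polynomial.C (t i) else 0)
          (fun i => Polynomial.C (z 6 i) +
          if (6 : Fin 7) = 6 then Polynomial.X * Polynomial.C (t i) else 0) 0 = 0 := by
      have g3 := fun j => hθ 3 j
      have g6 := fun j => hθ 6 j
      refine Eq.trans ?_ h0
      exact congrArg₂ (fun p q => cr p q 0) (_root_.funext fun j => (g3 j).symm)
        (_root_.funext fun j => (g6 j).symm)
    have h1 := congrArg (fun p => Polynomial.coeff p 1) h0'
    have h3 : z 3 1 * (- z 2 1) - z 3 2 * z 2 2 = 0 := by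
      have e1 : cr (fun i => Polynomial.C (z 3 i) +
          if (3 : Fin 7) = 6 then Polynomial.X * Polynomial.C (t i) else 0)
          (fun i => Polynomial.C (z 6 i) +
          if (6 : Fin 7) = 6 then Polynomial.X * Polynomial.C (t i) else 0) 0 =
          Polynomial.C (cr (z 3) (z 6) 0) +
            Polynomial.C (z 3 1 * (- z 2 1) - z 3 2 * z 2 2) * Polynomial.X := by
        have e3 : (3 : Fin 7) ≠ 6 := by decide
        simp only [cr_zero, if_neg e3, if_true, add_zero, map_sub, map_mul, map_neg]
        show Polynomial.C (z 3 1) * (Polynomial.C (z 6 2) + Polynomial.X * Polynomial.C (- z 2 1)) -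
          Polynomial.C (z 3 2) * (Polynomial.C (z 6 1) + Polynomial.X * Polynomial.C (z 2 2)) = _
        rw [map_neg]
        ring
      rw [e1] at h1
      have h1' : -(z 3 1 * z 2 1) - z 3 2 * z 2 2 = 0 := by simpa using h1
      linear_combination h1'
    have h4 := hzd 2 3 (by decide)
    simp only [dot] at h4
    have h5 : z 2 0 * z 3 0 = 0 := by linear_combination h4 + h3
    rcases mul_eq_zero.mp h5 with h6 | h6
    · exact hz2 h6
    · exact hz3 h6
  have hlt : RingHom.ker θ < Q := lt_of_le_of_ne hle (fun h => hne (by rw [h]; exact hyQ 0))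
  have hprime : (RingHom.ker θ).IsPrime := RingHom.ker_isPrime θ
  obtain ⟨P, hP, hPQ⟩ := Q37.exists_assoc_lt L Q (RingHom.ker θ) hprime hker hlt
  exact ⟨P, hP, Q, hQ, hPQ⟩

end Pool.Agent.Results.MP_e1e5e2_ag.EmbeddedPrime
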